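import Pool.Agent.helper83.GR.Spec

/-! Module `FCO` of project gr (MP_baa4d7_al): the trace formula for the idempotent of `C_H(y)`. -/

set_option autoImplicit false

namespace Pool.Agent.GR

open Pool.Agent.helper58.DC Pool.Agent.DI

theorem FCO_sum {G : Type} [Group G] (H : Subgroup G) [Fintype H] (f : G → ℂ) :
    ∑ᶠ z ∈ (H : Set G), f z = ∑ z : H, f z := by
  rw [← finsum_set_coe_eq_finsum_mem, finsum_eq_sum_of_fintype]
  rfl

theorem FCO_pow {G : Type} [Group G] [Finite G] {p : ℕ} (hp : p.Prime) (L : Subgroup G) (y v : G)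
    (hy : PEl p y) (hv : PReg p v) (hc : Commute y v) (h : y * v ∈ L) : y ∈ L ∧ v ∈ L := by
  obtain ⟨k, hk⟩ := hy
  have hcop : Nat.Coprime (p ^ k) (orderOf v) :=
    Nat.Coprime.pow_left k ((Nat.Prime.coprime_iff_not_dvd hp).2 hv)
  obtain ⟨m, hm1, hm2⟩ := Nat.chineseRemainder hcop 1 0
  have e1 : y ^ m = y := by
    conv_rhs => rw [← pow_one y]
    rw [pow_eq_pow_iff_modEq]
    exact hm1.of_dvd (orderOf_dvd_of_pow_eq_one hk)
  have e2 : v ^ m = 1 := by
    rw [← orderOf_dvd_iff_pow_eq_one]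
    exact (Nat.modEq_zero_iff_dvd).1 hm2
  have e3 : (y * v) ^ m = y := by
    rw [hc.mul_pow, e1, e2, mul_one]
  have hyL : y ∈ L := by
    rw [← e3]
    exact L.pow_mem h m
  refine ⟨hyL, ?_⟩
  have := L.mul_mem (L.inv_mem hyL) h
  rwa [inv_mul_cancel_left] at this

theorem FCO_shift {G : Type} [Group G] (H : Subgroup G) [Fintype H] (f : G → ℂ) (l : G)
    (hl : l ∈ H) : ∑ z : H, f (z * l) = ∑ z : H, f z :=
  Equiv.sum_comp (Equiv.mulRight (⟨l, hl⟩ : H)) (fun z : H => f z)

theorem FCO (hIDM : IDM_stmt) (hBR0 : BR0_stmt) (hSFC : SFC_stmt) : FCO_stmt := by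
  classical
  intro p M hS G _ _ H y hyH hyp T hT v hv v' hv' hvr hvr'
  have := Fintype.ofFinite G
  have hsub : T ⊆ IrrOn (Cz H y) := hT.sub
  obtain ⟨hcf, -, -, hI⟩ := hIDM G (Cz H y) T hsub
  obtain ⟨hC, -, -⟩ := hSFC G (Cz H y) T hsub
  set L : Subgroup G := Cz H y with hL
  have hLH : L ≤ H := inf_le_left
  have hLmem : ∀ z, z ∈ L ↔ z ∈ H ∧ z * y = y * z := by
    intro z
    rw [hL, Cz, Subgroup.mem_inf, Subgroup.mem_centralizer_iff]
    constructor
    · rintro ⟨h1, h2⟩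
      exact ⟨h1, (h2 y (Set.mem_singleton y)).symm⟩
    · rintro ⟨h1, h2⟩
      refine ⟨h1, fun g hg => ?_⟩
      rw [Set.mem_singleton_iff.1 hg]
      exact h2.symm
  have hyL : y ∈ L := (hLmem y).2 ⟨hyH, rfl⟩
  have ha : y * v ∈ L := L.mul_mem hyL hv
  have hb : y * v' ∈ L := L.mul_mem hyL hv'
  have hyv : Commute y v := ((hLmem v).1 hv).2.symm
  have hyv' : Commute y v' := ((hLmem v').1 hv').2.symm
  set a : G := y * v with hadef
  set b : G := y * v' with hbdef
  -- the inner sum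
  have hF : ∀ z ∈ H, ∑ l : L, eS L T (((z * (l : G))⁻¹ * a⁻¹ * (z * (l : G))) * b) =
      if z ∈ L then Sf T a b else 0 := by
    intro z hz
    have e0 : ∀ l : L, ((z * (l : G))⁻¹ * a⁻¹ * (z * (l : G))) * b =
        (l : G)⁻¹ * (z⁻¹ * a * z)⁻¹ * (l : G) * b := by
      intro l
      group
    rw [Finset.sum_congr rfl fun l _ => by rw [e0 l]]
    by_cases hcz : z⁻¹ * a * z ∈ L
    · have e1 : ∑ l : L, eS L T ((l : G)⁻¹ * (z⁻¹ * a * z)⁻¹ * (l : G) * b) =
          Sf T (z⁻¹ * a * z) b := by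
        rw [← hI _ hcz b hb, FCO_sum]
      rw [e1]
      by_cases hzL : z ∈ L
      · rw [if_pos hzL]
        have h1 := (hC a b z⁻¹ (L.inv_mem hzL)).1
        rwa [inv_inv] at h1
      · rw [if_neg hzL]
        have e2 : z⁻¹ * a * z = (z⁻¹ * y * z) * (z⁻¹ * v * z) := by
          rw [hadef]
          group
        have hy1 : PEl p (z⁻¹ * y * z) := by
          obtain ⟨k, hk⟩ := hyp
          refine ⟨k, ?_⟩
          have h3 := conj_pow (i := p ^ k) (a := z⁻¹) (b := y)
          rw [inv_inv, hk] at h3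
          rw [h3]
          group
        have hv1 : PReg p (z⁻¹ * v * z) := by
          intro h3
          apply hvr
          have h4 : orderOf v = orderOf (z⁻¹ * v * z) :=
            SemiconjBy.orderOf_eq z⁻¹ (show SemiconjBy z⁻¹ v (z⁻¹ * v * z) by
              show z⁻¹ * v = z⁻¹ * v * z * z⁻¹
              group)
          rw [h4]
          exact h3
        have hcc : Commute (z⁻¹ * y * z) (z⁻¹ * v * z) := by
          show z⁻¹ * y * z * (z⁻¹ * v * z) = z⁻¹ * v * z * (z⁻¹ * y * z)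
          have h5 : y * v = v * y := hyv
          calc z⁻¹ * y * z * (z⁻¹ * v * z) = z⁻¹ * (y * v) * z := by group
            _ = z⁻¹ * (v * y) * z := by rw [h5]
            _ = _ := by group
        rw [e2] at hcz ⊢
        obtain ⟨hy1L, hv1L⟩ := FCO_pow hS.pr L _ _ hy1 hv1 hcc hcz
        refine hBR0 p M hS G L T hT _ hy1L _ hv1L y hyL v' hv' hy1 hyp hv1 hvr' hcc hyv' ?_
        intro h hh he
        apply hzL
        have h6 : h * y = y * h := ((hLmem h).1 hh).2
        have h7 : z⁻¹ * y * z = h * y * h⁻¹ := by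
          have h8 : h * (h⁻¹ * (z⁻¹ * y * z) * h) * h⁻¹ = z⁻¹ * y * z := by group
          rw [← h8, he]
        rw [h6, mul_inv_cancel_right] at h7
        refine (hLmem z).2 ⟨hz, ?_⟩
        calc z * y = z * (z⁻¹ * y * z) := by rw [h7]
          _ = y * z := by group
    · have hzL : z ∉ L := by
        intro hzL
        exact hcz (L.mul_mem (L.mul_mem (L.inv_mem hzL) ha) hzL)
      rw [if_neg hzL]
      refine Finset.sum_eq_zero fun l _ => ?_
      apply hcf.2
      intro hx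
      apply hcz
      have h1 : (l : G)⁻¹ * (z⁻¹ * a * z)⁻¹ * (l : G) ∈ L := by
        have h2 := L.mul_mem hx (L.inv_mem hb)
        rwa [mul_inv_cancel_right] at h2
      have h2 := L.mul_mem (L.mul_mem l.2 h1) (L.inv_mem l.2)
      have e3 : (l : G) * ((l : G)⁻¹ * (z⁻¹ * a * z)⁻¹ * (l : G)) * (l : G)⁻¹ =
          (z⁻¹ * a * z)⁻¹ := by group
      rw [e3] at h2
      have h3 := L.inv_mem h2
      rwa [inv_inv] at h3
  have hcard : (Fintype.card L : ℂ) ≠ 0 := by
    exact_mod_cast Fintype.card_ne_zero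
  have hmain : (Fintype.card L : ℂ) * ∑ z : H, eS L T ((z : G)⁻¹ * a⁻¹ * z * b) =
      (Fintype.card L : ℂ) * Sf T a b := by
    have e1 : (Fintype.card L : ℂ) * ∑ z : H, eS L T ((z : G)⁻¹ * a⁻¹ * z * b) =
        ∑ l : L, ∑ z : H, eS L T ((((z : G) * (l : G))⁻¹ * a⁻¹ * ((z : G) * (l : G))) * b) := by
      have e2 : ∀ l : L, ∑ z : H, eS L T ((((z : G) * (l : G))⁻¹ * a⁻¹ *
          ((z : G) * (l : G))) * b) = ∑ z : H, eS L T ((z : G)⁻¹ * a⁻¹ * z * b) := fun l =>
        FCO_shift H (fun z => eS L T (z⁻¹ * a⁻¹ * z * b)) l (hLH l.2)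
      rw [Finset.sum_congr rfl fun l _ => e2 l, Finset.sum_const, nsmul_eq_mul, Finset.card_univ]
    rw [e1, Finset.sum_comm, Finset.sum_congr rfl fun (z : H) _ => hF (z : G) z.2, ← FCO_sum H
      (fun z => if z ∈ L then Sf T a b else 0)]
    have e3 : ∑ᶠ z ∈ (H : Set G), (if z ∈ L then Sf T a b else 0) =
        ∑ᶠ z ∈ (L : Set G), Sf T a b := by
      rw [finsum_mem_def, finsum_mem_def]
      refine finsum_congr fun z => ?_
      by_cases hz : z ∈ L
      · rw [Set.indicator_of_mem (show z ∈ (H : Set G) from hLH hz), if_pos hz,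
          Set.indicator_of_mem (show z ∈ (L : Set G) from hz)]
      · rw [Set.indicator_of_notMem (show z ∉ (L : Set G) from hz)]
        by_cases hz' : z ∈ H
        · rw [Set.indicator_of_mem (show z ∈ (H : Set G) from hz'), if_neg hz]
        · rw [Set.indicator_of_notMem (show z ∉ (H : Set G) from hz')]
    rw [e3, FCO_sum L (fun _ => Sf T a b), Finset.sum_const, nsmul_eq_mul, Finset.card_univ]
  rw [FCO_sum H (fun z => eS L T (z⁻¹ * a⁻¹ * z * b))]
  exact mul_left_cancel₀ hcard hmain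

end Pool.Agent.GR
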